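import Mathlib

/-!
Project BP (MP_ce44ee_pr, rapid mixing of the orbit sampling process on graphs): definitions and
statements of the parts.
-/

set_option autoImplicit false

namespace Pool.Agent.W79.BP

open scoped Classical

/-! ### Automorphisms, fixed graphs, cycles, orbits -/

/-- the automorphisms of `γ` -/
noncomputable def Au {n : ℕ} (γ : SimpleGraph (Fin n)) : Finset (Equiv.Perm (Fin n)) :=
  Finset.univ.filter (fun τ => SimpleGraph.comap (⇑τ) γ = γ)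

/-- the graphs fixed by `σ` -/
noncomputable def Fx {n : ℕ} (σ : Equiv.Perm (Fin n)) : Finset (SimpleGraph (Fin n)) :=
  Finset.univ.filter (fun δ => SimpleGraph.comap (⇑σ) δ = δ)

/-- the cycle of `σ` through `x` -/
noncomputable def cy {n : ℕ} (σ : Equiv.Perm (Fin n)) (x : Fin n) : Finset (Fin n) :=
  Finset.univ.filter (fun y => σ.SameCycle x y)

/-- the set of the cycles of `σ`, fixed points included -/
noncomputable def Cy {n : ℕ} (σ : Equiv.Perm (Fin n)) : Finset (Finset (Fin n)) :=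
  Finset.univ.image (cy σ)

/-- the orbit of `x` under the automorphisms of `β` -/
noncomputable def ob {n : ℕ} (β : SimpleGraph (Fin n)) (x : Fin n) : Finset (Fin n) :=
  Finset.univ.filter (fun y => ∃ τ ∈ Au β, τ x = y)

/-- the potential of `σ`: the sum of the squares of the lengths of the cycles of length `≥ 2` -/
noncomputable def hh {n : ℕ} (σ : Equiv.Perm (Fin n)) : ℕ :=
  ∑ x ∈ Finset.univ.filter (fun x => σ x ≠ x), (cy σ x).card

/-- the potential of `β` -/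
noncomputable def DD {n : ℕ} (β : SimpleGraph (Fin n)) : ℕ :=
  ∑ x : Fin n, ((ob β x).card - 1)

/-- two pairs of vertices are in the same orbit of `σ` on unordered pairs -/
def SO {n : ℕ} (σ : Equiv.Perm (Fin n)) (p q : Fin n × Fin n) : Prop :=
  ∃ k : ℤ, ((σ ^ k) p.1 = q.1 ∧ (σ ^ k) p.2 = q.2) ∨ ((σ ^ k) p.1 = q.2 ∧ (σ ^ k) p.2 = q.1)

/-- `b n` is at least the binary logarithm of `n` -/
def b (n : ℕ) : ℕ := Nat.log 2 n + 1

/-! ### Counting graphs fixed by `σ` -/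

/-- if every graph fixed by `σ` can be brought into `B` by at most `M` of the `2 ^ N` ways of
flipping some of `N` different orbits of pairs, then the proportion of `B` is at most `M / 2 ^ N` -/
def S_FLIP : Prop :=
  ∀ (n : ℕ) (σ : Equiv.Perm (Fin n)) (J : Type) [Fintype J] (p : J → Fin n × Fin n),
    (∀ j, (p j).1 ≠ (p j).2) → (∀ i j, i ≠ j → ¬ SO σ (p i) (p j)) →
    ∀ (B : Finset (SimpleGraph (Fin n))) (M : ℕ), B ⊆ Fx σ →
      (∀ β ∈ Fx σ, ((Finset.univ : Finset (Finset J)).filter (fun s => ∃ δ ∈ B,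
        ∀ u v, δ.Adj u v ↔ ¬ (β.Adj u v ↔ ∃ j ∈ s, SO σ (p j) (u, v)))).card ≤ M) →
      B.card * 2 ^ Fintype.card J ≤ (Fx σ).card * M

/-- independent equations -/
def S_EQ : Prop :=
  ∀ (n : ℕ) (σ : Equiv.Perm (Fin n)) (J : Type) [Fintype J] (p q : J → Fin n × Fin n),
    (∀ j, (p j).1 ≠ (p j).2) → (∀ j, (q j).1 ≠ (q j).2) →
    (∀ i j, i ≠ j → ¬ SO σ (p i) (p j)) → (∀ j, ¬ SO σ (p j) (q j)) →
    ((Fx σ).filter (fun β => ∀ j, β.Adj (p j).1 (p j).2 ↔ β.Adj (q j).1 (q j).2)).card *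
      2 ^ (Fintype.card J / 4) ≤ (Fx σ).card

/-! ### Many cycles -/

/-- few graphs have an automorphism moving many cycles -/
def S_A1 : Prop :=
  ∀ (n : ℕ) (σ : Equiv.Perm (Fin n)) (q : ℕ), 2 * q ≤ (Cy σ).card →
    ((Fx σ).filter (fun β => ∃ τ ∈ Au β,
      q ≤ ((Cy σ).filter (fun C => ∃ x ∈ C, τ x ∉ C)).card)).card * 2 ^ ((q * q - q) / 4) ≤
      n ^ (4 * q) * (Fx σ).card

/-- for two points in different cycles few graphs have many cycles with equal degrees -/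
def S_A2 : Prop :=
  ∀ (n : ℕ) (σ : Equiv.Perm (Fin n)) (x y : Fin n) (q : ℕ), ¬ σ.SameCycle x y →
    ((Fx σ).filter (fun β => ((Cy σ).filter (fun C => x ∉ C ∧ y ∉ C ∧
      (C.filter (β.Adj x)).card ≠ (C.filter (β.Adj y)).card)).card < q)).card *
        2 ^ ((Cy σ).card - 2) ≤
      (∑ j ∈ Finset.range q, ((Cy σ).card - 2).choose j) * (Fx σ).card

/-- many cycles: nearly all the graphs fixed by `σ` have only automorphisms preserving its
cycles -/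
def S_A : Prop :=
  ∃ n0 : ℕ, ∀ n ≥ n0, ∀ σ : Equiv.Perm (Fin n), 160 * b n ≤ (Cy σ).card →
    ((Fx σ).filter (fun β => ∃ τ ∈ Au β, ∃ x, ¬ σ.SameCycle x (τ x))).card * n ^ 4 ≤ (Fx σ).card

/-! ### Few cycles -/

/-- two long cycles are rarely in the same orbit -/
def S_B1 : Prop :=
  ∀ (n : ℕ) (σ : Equiv.Perm (Fin n)) (K : ℕ), 1 ≤ K →
    ((Fx σ).filter (fun β => ∃ x y, ¬ σ.SameCycle x y ∧ 4 * K ^ 2 ≤ (cy σ x).card ∧
      4 * K ^ 2 ≤ (cy σ y).card ∧ y ∈ ob β x)).card * 2 ^ (K * K / 8) ≤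
      n ^ (1 + 2 * K) * (Fx σ).card

/-- the degree of a point in a long cycle is spread out -/
def S_B2 : Prop :=
  ∀ (n : ℕ) (σ : Equiv.Perm (Fin n)) (x y : Fin n), ¬ σ.SameCycle x y →
    ((Fx σ).filter (fun β => ((Finset.univ.filter (β.Adj x)).card =
      (Finset.univ.filter (β.Adj y)).card))).card ^ 2 * (((cy σ y).card - 1) / 2) ≤
      (Fx σ).card ^ 2

/-- few cycles -/
def S_B : Prop :=
  ∃ n0 : ℕ, ∀ n ≥ n0, ∀ σ : Equiv.Perm (Fin n), (Cy σ).card < 160 * b n →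
    2 * ∑ β ∈ Fx σ, DD β + n * (Fx σ).card ≤ 2 * hh σ * (Fx σ).card

/-! ### The drift -/

/-- the drift: the mean of `DD` over the graphs fixed by `σ` is at most `(1 - 1 / 2n) hh σ` -/
def S_DRIFT : Prop :=
  ∃ n0 : ℕ, ∀ n ≥ n0, ∀ σ : Equiv.Perm (Fin n), σ ≠ 1 →
    2 * n * ∑ β ∈ Fx σ, DD β + hh σ * (Fx σ).card ≤ 2 * n * hh σ * (Fx σ).card

/-- the mean of `hh` over the automorphisms of `β` -/
def S_AVG : Prop :=
  ∀ (n : ℕ) (β : SimpleGraph (Fin n)), ∑ τ ∈ Au β, hh τ ≤ (Au β).card * DD β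

/-- almost no graph has a nontrivial automorphism -/
def S_UNI : Prop :=
  ∃ n0 : ℕ, ∀ n ≥ n0,
    16 * ∑ σ ∈ (Finset.univ : Finset (Equiv.Perm (Fin n))).erase 1, (Fx σ).card ≤
      Fintype.card (SimpleGraph (Fin n))

/-- powers of the logarithm -/
def S_LOG : Prop :=
  ∀ c k : ℕ, ∃ n0 : ℕ, ∀ n ≥ n0, c * b n ^ k ≤ n

/-! ### The chain -/

/-- one step of the chain -/
noncomputable def stp {n : ℕ} (f : SimpleGraph (Fin n) → ℝ) : SimpleGraph (Fin n) → ℝ :=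
  fun β => ∑ γ, f γ * ∑ σ ∈ Au γ ∩ Au β, 1 / (((Au γ).card : ℝ) * ((Fx σ).card : ℝ))

/-- the stationary distribution -/
noncomputable def st {n : ℕ} (β : SimpleGraph (Fin n)) : ℝ :=
  ((Au β).card : ℝ) / ∑ γ : SimpleGraph (Fin n), ((Au γ).card : ℝ)

/-- the point mass at `α` after `t` steps -/
noncomputable def mu {n : ℕ} (α : SimpleGraph (Fin n)) (t : ℕ) : SimpleGraph (Fin n) → ℝ :=
  stp^[t] (fun β => if β = α then 1 else 0)

/-- basic facts on the chain -/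
def S_STP : Prop :=
  ∀ n : ℕ,
    (∀ f : SimpleGraph (Fin n) → ℝ, ∑ β, stp f β = ∑ β, f β) ∧
    (stp (fun β : SimpleGraph (Fin n) => st β) = fun β => st β) ∧
    (∑ β : SimpleGraph (Fin n), st β = 1) ∧ (∀ β : SimpleGraph (Fin n), 0 ≤ st β) ∧
    (∀ (f g : SimpleGraph (Fin n) → ℝ) (c : ℝ),
      stp (fun β => f β + c * g β) = fun β => stp f β + c * stp g β) ∧
    (∀ f : SimpleGraph (Fin n) → ℝ, ∑ β, |stp f β| ≤ ∑ β, |f β|) ∧
    (∀ f : SimpleGraph (Fin n) → ℝ, ∑ β, f β = 0 →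
      ∑ β, |stp f β| ≤ (1 - 1 / (n.factorial : ℝ)) * ∑ β, |f β|)

/-- for one `n` -/
def S_ONE : Prop :=
  ∀ n : ℕ, ∃ T : ℕ, ∀ (α : SimpleGraph (Fin n)) (t : ℕ), T ≤ t →
    (1 / 2 : ℝ) * ∑ β, |mu α t β - st β| ≤ 1 / 4

/-- for large `n` -/
def S_LARGE : Prop :=
  ∃ C n0 : ℕ, ∀ n ≥ n0, ∀ (α : SimpleGraph (Fin n)) (t : ℕ), C * (n + 1) ^ 2 ≤ t →
    (1 / 2 : ℝ) * ∑ β, |mu α t β - st β| ≤ 1 / 4

/-- the frozen statement, with finite sums -/
def S_FIN : Prop :=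
  ∃ C : ℕ, ∀ (n : ℕ) (α : SimpleGraph (Fin n)) (t : ℕ), C * (n + 1) ^ 2 ≤ t →
    (1 / 2 : ℝ) * ∑ β, |mu α t β - st β| ≤ 1 / 4

end Pool.Agent.W79.BP
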